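import Pool.Agent.Lib.MP_f10cd3_gt.Cover

/-! Gromov-Hausdorff distance of a round sphere and a flat torus of any size and shape. -/

namespace Pool.Agent.Results.MP_f10cd3_gt.AllSizes

open MPf10cd3 Real

theorem result (X T : Type) [MetricSpace X] [CompactSpace X] [Nonempty X] [MetricSpace T]
    [CompactSpace T] [Nonempty T] (ρ : ℝ) (hρ : 0 < ρ) (hX : IsRoundSphere ρ X)
    (a b : EuclideanSpace ℝ (Fin 2)) (hT : IsFlatTorus a b T) :
    π * ρ / (2 + 3 * √2) ≤ GromovHausdorff.ghDist X T := by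
  obtain ⟨hab, q, hq, hqd⟩ := hT
  obtain ⟨c, h, D⟩ := exists_torusData hab hq hqd
  obtain ⟨p, hp, hp1, hp2, hp3⟩ := exists_polar hρ hX
  have hcpos : 0 < ‖c‖ := norm_pos_iff.mpr D.c0
  have hπ := pi_pos
  have s2 : √2 ^ 2 = 2 := Real.sq_sqrt (by norm_num)
  have s2p : 0 < √2 := by positivity
  have s10 : √10 ^ 2 = 10 := Real.sq_sqrt (by norm_num)
  have s10p : 0 < √10 := by positivity
  by_contra hcon
  push Not at hcon
  obtain ⟨r, hr1, hr2⟩ := exists_between hcon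
  obtain ⟨g, f, hg, hf, hfg⟩ := exists_maps hr1
  have hR : 0 < 2 * r := lt_of_le_of_lt (abs_nonneg _) (hg (p (0, 0)) (p (0, 0)))
  have hr0 : 0 < r := by linarith
  rw [lt_div_iff₀ (by positivity)] at hr2
  have hA := ineqA D hρ hX hg
  have hB := ineqB D hρ hX hg
  have b2 : √2 < 1.4143 := by
    rw [Real.sqrt_lt' (by norm_num)]; norm_num
  have b2' : 1.4142 < √2 := by
    rw [Real.lt_sqrt (by norm_num)]; norm_num
  have b10 : √10 < 3.1623 := by
    rw [Real.sqrt_lt' (by norm_num)]; norm_num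
  have hρπ : 0 < ρ * π := by positivity
  have hr3 : r * 6.2426 < ρ * π := by nlinarith
  rcases hA with hA | hA
  · rcases hB with hB | hB
    · have e1 := (abs_lt.mp (hg (p (0, 0)) (p (sig (0, 0))))).1
      have e2 := D.hdiam (g (p (0, 0))) (g (p (sig (0, 0))))
      have e3 : √((h / 2) ^ 2 + (‖c‖ / 2) ^ 2) ≤ 3 * √2 / 2 * (2 * r) := by
        apply Real.sqrt_le_iff.mpr
        refine ⟨by positivity, ?_⟩
        have e4 : (3 * √2 / 2 * (2 * r)) ^ 2 = 18 * r ^ 2 := by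
          rw [show (3 * √2 / 2 * (2 * r)) ^ 2 = 9 * √2 ^ 2 * r ^ 2 by ring, s2]; ring
        rw [e4]
        have t1 : ‖c‖ ^ 2 ≤ (3 * (2 * r)) ^ 2 := pow_le_pow_left₀ hcpos.le hA 2
        have t2 : h ^ 2 ≤ (3 * (2 * r)) ^ 2 := pow_le_pow_left₀ D.hh.le hB 2
        nlinarith
      rw [hp2] at e1
      nlinarith
    · have e3 : √((2 * r / 2) ^ 2 + (‖c‖ / 2) ^ 2) ≤ √10 * r := by
        apply Real.sqrt_le_iff.mpr
        refine ⟨by positivity, ?_⟩
        rw [mul_pow, s10]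
        have t1 : ‖c‖ ^ 2 ≤ (3 * (2 * r)) ^ 2 := pow_le_pow_left₀ hcpos.le hA 2
        nlinarith
      nlinarith
  · nlinarith

end Pool.Agent.Results.MP_f10cd3_gt.AllSizes
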