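import Pool.Agent.Lib.MP_f10cd3_gt.Cover

/-! Gromov-Hausdorff distance of a round sphere and a flat torus of the same diameter. -/

namespace Pool.Agent.Results.MP_f10cd3_gt.EqualDiameter

open MPf10cd3 Real

theorem result (X T : Type) [MetricSpace X] [CompactSpace X] [Nonempty X] [MetricSpace T]
    [CompactSpace T] [Nonempty T] (ρ : ℝ) (hρ : 0 < ρ) (hX : IsRoundSphere ρ X)
    (a b : EuclideanSpace ℝ (Fin 2)) (hT : IsFlatTorus a b T)
    (D : ℝ) (hDX : Metric.diam (Set.univ : Set X) = D) (hDT : Metric.diam (Set.univ : Set T) = D)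
    (s : ℝ) (hs : ∀ m n : ℤ, m • a + n • b ≠ 0 → s ≤ ‖m • a + n • b‖)
    (hs' : ∃ m n : ℤ, m • a + n • b ≠ 0 ∧ ‖m • a + n • b‖ = s) :
    max (max (D / 5) (s / 6)) ((4 * D - √(4 * D ^ 2 + 3 * s ^ 2)) / 6) ≤
      GromovHausdorff.ghDist X T := by
  obtain ⟨hab, q, hq, hqd⟩ := hT
  obtain ⟨c, h, E⟩ := exists_torusData hab hq hqd
  obtain ⟨p, hp, hp1, hp2, hp3⟩ := exists_polar hρ hX
  have hcpos : 0 < ‖c‖ := norm_pos_iff.mpr E.c0
  have hπ := pi_pos
  have s2p : 0 < √2 := by positivity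
  have s3 : √3 ^ 2 = 3 := Real.sq_sqrt (by norm_num)
  have s3p : 0 < √3 := by positivity
  -- the common diameter
  have hdX : D = ρ * π := by
    rw [← hDX]
    apply le_antisymm
    · exact Metric.diam_le_of_forall_dist_le (by positivity) (fun x _ y _ => hp3 x y)
    · rw [← hp2 (0, 0)]
      exact Metric.dist_le_diam_of_mem (isCompact_univ.isBounded) (Set.mem_univ _) (Set.mem_univ _)
  have hdle : D ≤ √((h / 2) ^ 2 + (‖c‖ / 2) ^ 2) := by
    rw [← hDT]
    exact Metric.diam_le_of_forall_dist_le (Real.sqrt_nonneg _) (fun x _ y _ => E.hdiam x y)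
  have hcd : ‖c‖ ≤ √3 * D := by
    obtain ⟨x, y, hxy⟩ := exists_far E
    have h1 : dist x y ≤ D := by
      rw [← hDT]
      exact Metric.dist_le_diam_of_mem (isCompact_univ.isBounded) (Set.mem_univ _) (Set.mem_univ _)
    rw [div_le_iff₀ s3p] at hxy
    nlinarith
  have hdpos : 0 < D := by rw [hdX]; positivity
  have hsc : s = ‖c‖ := by
    apply le_antisymm
    · obtain ⟨m, n, hmn⟩ := mem_lat.mp E.hcΛ
      rw [← hmn]
      apply hs
      rw [hmn]; exact E.c0
    · obtain ⟨m, n, hmn0, hmn⟩ := hs'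
      rw [← hmn]
      exact E.hmin _ (mem_lat.mpr ⟨m, n, rfl⟩) hmn0
  by_contra hcon
  push Not at hcon
  obtain ⟨r, hr1, hr2⟩ := exists_between hcon
  obtain ⟨g, f, hg, hf, hfg⟩ := exists_maps hr1
  have hR : 0 < 2 * r := lt_of_le_of_lt (abs_nonneg _) (hg (p (0, 0)) (p (0, 0)))
  have hr0 : 0 < r := by linarith
  have hA := ineqA E hρ hX hg
  have hB := ineqB E hρ hX hg
  have hC := ineqC E (coarseSC_of_isRoundSphere hρ hX) (isGeod_of_isRoundSphere hX) hg hf hfg
  rw [← hdX] at hA hB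
  have c2 : (1 : ℝ) / 3 * √3 < 2 - √2 := by
    have h1 : √2 < 1.4143 := by
      rw [Real.sqrt_lt' (by norm_num)]; norm_num
    have h2 : √3 < 1.7321 := by
      rw [Real.sqrt_lt' (by norm_num)]; norm_num
    nlinarith
  have c3 : (2 : ℝ) / 5 < 2 - √2 := by
    have h1 : √2 < 1.4143 := by
      rw [Real.sqrt_lt' (by norm_num)]; norm_num
    linarith
  rcases lt_max_iff.mp hr2 with h0 | h0
  · rcases lt_max_iff.mp h0 with h1 | h1
    · -- the bound by the diameter
      rcases hA with hA | hA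
      · have e1 : √((h / 2) ^ 2 + (‖c‖ / 2) ^ 2) ≤ 5 / 2 * (2 * r) := by
          apply Real.sqrt_le_iff.mpr
          refine ⟨by positivity, ?_⟩
          have t1 : ‖c‖ ^ 2 ≤ (3 * (2 * r)) ^ 2 := pow_le_pow_left₀ hcpos.le hA 2
          have t2 : h ^ 2 ≤ (4 * (2 * r)) ^ 2 := pow_le_pow_left₀ E.hh.le hC 2
          nlinarith
        linarith
      · nlinarith
    · -- the bound by the systole
      rcases hA with hA | hA
      · linarith
      · nlinarith
  · -- the bound for thin tori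
    rw [hsc] at h0
    set w := √(4 * D ^ 2 + 3 * ‖c‖ ^ 2) with hw
    have hw2 : w ^ 2 = 4 * D ^ 2 + 3 * ‖c‖ ^ 2 := Real.sq_sqrt (by positivity)
    have hw0 : 0 ≤ w := Real.sqrt_nonneg _
    have hwD : 2 * D ≤ w := by
      apply Real.le_sqrt_of_sq_le
      nlinarith [sq_nonneg ‖c‖]
    have hc3 : ‖c‖ ^ 2 ≤ 3 * D ^ 2 := by
      have := pow_le_pow_left₀ hcpos.le hcd 2
      rw [mul_pow, s3] at this
      exact this
    rcases hB with hB | hB
    · -- short height
      have e1 : D ^ 2 ≤ (h / 2) ^ 2 + (‖c‖ / 2) ^ 2 := by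
        have := pow_le_pow_left₀ hdpos.le hdle 2
        rwa [Real.sq_sqrt (by positivity)] at this
      have e2 : h ^ 2 ≤ (3 * (2 * r)) ^ 2 := pow_le_pow_left₀ E.hh.le hB 2
      have e3 : 6 * r < 4 * D - w := by linarith
      have e4 : (6 * r) ^ 2 < (4 * D - w) ^ 2 := pow_lt_pow_left₀ e3 (by positivity) (by norm_num)
      -- 4 D² - c² < (4D - w)²
      have e5 : 4 * D ^ 2 - ‖c‖ ^ 2 < (4 * D - w) ^ 2 := by nlinarith
      have e6 : 2 * D * w < 4 * D ^ 2 + ‖c‖ ^ 2 := by nlinarith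
      have e7 : (2 * D * w) ^ 2 < (4 * D ^ 2 + ‖c‖ ^ 2) ^ 2 :=
        pow_lt_pow_left₀ e6 (by positivity) (by norm_num)
      have e8 : (2 * D * w) ^ 2 = 4 * D ^ 2 * (4 * D ^ 2 + 3 * ‖c‖ ^ 2) := by
        rw [mul_pow, mul_pow, hw2]; ring
      rw [e8] at e7
      have e9 : 0 < ‖c‖ ^ 2 * (‖c‖ ^ 2 - 4 * D ^ 2) := by nlinarith
      have e10 : 0 < ‖c‖ ^ 2 := by positivity
      have e11 : 0 < ‖c‖ ^ 2 - 4 * D ^ 2 := by
        by_contra hneg
        push Not at hneg
        nlinarith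
      nlinarith
    · have e1 : 0 ≤ D - 2 * r := by linarith
      have e2 := pow_le_pow_left₀ e1 hB 2
      rw [Real.sq_sqrt (by positivity)] at e2
      have e3 : 6 * r < 4 * D - w := by linarith
      nlinarith

end Pool.Agent.Results.MP_f10cd3_gt.EqualDiameter
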