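import Pool.Agent.Lib.MP_f10cd3_gt.N.Main

/-! Gromov-Hausdorff distance of closed Riemannian surfaces of different genus with `|K| ≤ κ`. -/

namespace Pool.Agent.Results.MP_f10cd3_gt.GenusGap

open F10N F10T Bundle
open scoped Manifold ContDiff

theorem result (κ : ℝ) (hκ : 0 < κ) (g g' : ℕ) (hg : g ≠ g') (M M' : Type)
    [MetricSpace M] [CompactSpace M] [Nonempty M] [ChartedSpace ℂ M] [IsManifold 𝓘(ℝ, ℂ) ∞ M]
    [RiemannianBundle (fun x : M => TangentSpace 𝓘(ℝ, ℂ) x)]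
    [IsContMDiffRiemannianBundle 𝓘(ℝ, ℂ) ∞ ℂ (fun x : M => TangentSpace 𝓘(ℝ, ℂ) x)]
    [IsRiemannianManifold 𝓘(ℝ, ℂ) M]
    [MetricSpace M'] [CompactSpace M'] [Nonempty M'] [ChartedSpace ℂ M']
    [IsManifold 𝓘(ℝ, ℂ) ∞ M'] [RiemannianBundle (fun x : M' => TangentSpace 𝓘(ℝ, ℂ) x)]
    [IsContMDiffRiemannianBundle 𝓘(ℝ, ℂ) ∞ ℂ (fun x : M' => TangentSpace 𝓘(ℝ, ℂ) x)]
    [IsRiemannianManifold 𝓘(ℝ, ℂ) M']
    (ho : Oriented M) (hs : HasGenus g M) (h : CurvBound κ M)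
    (ho' : Oriented M') (hs' : HasGenus g' M') (h' : CurvBound κ M') :
    1 / (200000 * √κ) ≤ GromovHausdorff.ghDist M M' :=
  gh_genus hκ hg ho hs h ho' hs' h'

end Pool.Agent.Results.MP_f10cd3_gt.GenusGap
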