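import Pool.Agent.Lib.MP_f10cd3_gt.Cover
import Pool.Agent.Lib.MP_f10cd3_gt.SimplyConn

/-! Gromov-Hausdorff distance of a simply connected geodesic space and a flat torus. -/

namespace Pool.Agent.Results.MP_f10cd3_gt.SimplyConnected

open MPf10cd3 Real

theorem result (M T : Type) [MetricSpace M] [CompactSpace M] [SimplyConnectedSpace M]
    (hM : IsGeod M) [MetricSpace T] [CompactSpace T] [Nonempty T]
    (a b : EuclideanSpace ℝ (Fin 2)) (hT : IsFlatTorus a b T) :
    max (Metric.diam (Set.univ : Set M)) (√2 * Metric.diam (Set.univ : Set T)) ≤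
      8 * GromovHausdorff.ghDist M T := by
  obtain ⟨hab, q, hq, hqd⟩ := hT
  obtain ⟨c, h, D⟩ := exists_torusData hab hq hqd
  have s2 : √2 ^ 2 = 2 := Real.sq_sqrt (by norm_num)
  have s2p : 0 < √2 := by positivity
  have b2 : √2 < 1.4143 := by
    rw [Real.sqrt_lt' (by norm_num)]; norm_num
  by_contra hcon
  push Not at hcon
  have hcon' : GromovHausdorff.ghDist M T <
      max (Metric.diam (Set.univ : Set M)) (√2 * Metric.diam (Set.univ : Set T)) / 8 := by
    rw [lt_div_iff₀ (by norm_num)]; linarith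
  obtain ⟨r, hr1, hr2⟩ := exists_between hcon'
  obtain ⟨g, f, hg, hf, hfg⟩ := exists_maps hr1
  obtain ⟨x0⟩ : Nonempty M := inferInstance
  have hR : 0 < 2 * r := lt_of_le_of_lt (abs_nonneg _) (hg x0 x0)
  have hr0 : 0 < r := by linarith
  have hC := ineqC D (coarseSC_of_simplyConnected hM) hM hg hf hfg
  have hdist : ∀ x y : T, dist x y ≤ 4 * √2 * r := by
    intro x y
    have h1 := dist_le_height D x y
    have h2 : h / √2 ≤ 4 * √2 * r := by
      rw [div_le_iff₀ s2p]
      nlinarith
    exact h1.trans h2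
  have hdT : Metric.diam (Set.univ : Set T) ≤ 4 * √2 * r :=
    Metric.diam_le_of_forall_dist_le (by positivity) (fun x _ y _ => hdist x y)
  have hdM : Metric.diam (Set.univ : Set M) ≤ 4 * √2 * r + 2 * r := by
    apply Metric.diam_le_of_forall_dist_le (by positivity)
    intro x _ y _
    have h1 := (abs_lt.mp (hg x y)).1
    have h2 := hdist (g x) (g y)
    linarith
  rw [lt_div_iff₀ (by norm_num)] at hr2
  rcases lt_max_iff.mp hr2 with h1 | h1
  · nlinarith
  · nlinarith

end Pool.Agent.Results.MP_f10cd3_gt.SimplyConnected
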